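import Pool.Agent.H80.HS.Targets

namespace Pool.Agent.H58.HS.B5
open MeasureTheory Set Pool.Agent.H80.HS
open scoped ContDiff ENNReal Pointwise

theorem b5 : T_B4 → T_B5 := by
  intro hB4 n hn A s hA hne hs
  have hn0 : (0 : ℝ) < n := by exact_mod_cast hn
  have hnn : n ≠ 0 := by omega
  have hsub : A ⊆ Metric.thickening s A := Metric.self_subset_thickening hs A
  by_cases hinf : volume A = ⊤
  · have h1 : volume (Metric.thickening s A) = ⊤ := by
      have := measure_mono (μ := volume) hsub
      rw [hinf] at this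
      exact top_le_iff.1 this
    rw [h1]
    exact le_top
  have hApos : 0 < volume A := hA.measure_pos volume hne
  set a : ℝ := (volume A).toReal with ha
  have ha0 : 0 < a := ENNReal.toReal_pos hApos.ne' hinf
  have hAa : volume A = ENNReal.ofReal a := (ENNReal.ofReal_toReal hinf).symm
  have hom := om_pos n
  set al : ℝ := a ^ (1 / (n : ℝ)) with hal
  set be : ℝ := s * om n ^ (1 / (n : ℝ)) with hbe
  have hal0 : 0 < al := Real.rpow_pos_of_pos ha0 _
  have hbe0 : 0 < be := mul_pos hs (Real.rpow_pos_of_pos hom _)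
  set l : ℝ := be / (al + be) with hl
  have hl0 : 0 < l := by positivity
  have hl1 : l < 1 := by
    rw [hl, div_lt_one (by positivity)]
    linarith
  have h1l : 1 - l = al / (al + be) := by
    rw [hl]
    field_simp
    ring
  have h1l0 : 0 < 1 - l := by linarith
  have haln : al ^ n = a := by
    rw [hal, ← Real.rpow_natCast, ← Real.rpow_mul ha0.le]
    rw [one_div_mul_cancel hn0.ne', Real.rpow_one]
  have homn : (om n ^ (1 / (n : ℝ))) ^ n = om n := by
    rw [← Real.rpow_natCast, ← Real.rpow_mul hom.le]
    rw [one_div_mul_cancel hn0.ne', Real.rpow_one]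
  have hbl : be / l = al + be := by
    rw [hl]
    field_simp
  have hal1 : al / (1 - l) = al + be := by
    rw [h1l]
    field_simp
  -- volumes
  have hv1 : volume ((1 - l)⁻¹ • A) = ENNReal.ofReal ((al + be) ^ n) := by
    rw [Measure.addHaar_smul, hAa, ← ENNReal.ofReal_mul (by positivity)]
    congr 1
    rw [finrank_euclideanSpace, Fintype.card_fin, abs_of_nonneg (by positivity), ← haln, ← mul_pow,
      ← hal1]
    congr 1
    field_simp
  have hv2 : volume (Metric.ball (0 : V n) (s / l)) = ENNReal.ofReal ((al + be) ^ n) := by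
    rw [Measure.addHaar_ball_of_pos volume (0 : V n) (by positivity : (0 : ℝ) < s / l)]
    have h2 : volume (Metric.ball (0 : V n) 1) = ENNReal.ofReal (om n) := by
      unfold om
      rw [ENNReal.ofReal_toReal measure_ball_lt_top.ne]
    rw [h2, ← ENNReal.ofReal_mul (by positivity)]
    congr 1
    rw [finrank_euclideanSpace, Fintype.card_fin]
    conv_lhs => rw [← homn]
    rw [← mul_pow, ← hbl, hbe]
    congr 1
    ring
  have hB := hB4 n l hl0 hl1 ((1 - l)⁻¹ • A) (Metric.ball (0 : V n) (s / l))
    (Metric.thickening s A) (hA.smul₀ (by positivity)) Metric.isOpen_ball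
    Metric.isOpen_thickening (by
      rintro _ ⟨x, hx, rfl⟩ b hb
      rw [Metric.mem_thickening_iff]
      refine ⟨x, hx, ?_⟩
      rw [dist_eq_norm]
      have e : (1 - l) • (1 - l)⁻¹ • x + l • b - x = l • b := by
        rw [smul_smul, mul_inv_cancel₀ h1l0.ne', one_smul]
        abel
      show ‖(1 - l) • ((1 - l)⁻¹ • x) + l • b - x‖ < s
      rw [e, norm_smul, Real.norm_of_nonneg hl0.le]
      have h3 : ‖b‖ < s / l := by simpa using hb
      calc l * ‖b‖ < l * (s / l) := mul_lt_mul_of_pos_left h3 hl0
        _ = s := by field_simp)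
  rw [hv1, hv2, ← ENNReal.rpow_add _ _ (by
      rw [Ne, ENNReal.ofReal_eq_zero, not_le]
      positivity) ENNReal.ofReal_ne_top] at hB
  rw [show 1 - l + l = 1 by ring, ENNReal.rpow_one] at hB
  refine le_trans ?_ hB
  rw [hAa, ENNReal.ofReal_rpow_of_pos ha0, ← ENNReal.ofReal_mul (by
      have := K_pos hn
      positivity), ← ENNReal.ofReal_add ha0.le (by
      have := K_pos hn
      positivity)]
  refine ENNReal.ofReal_le_ofReal ?_
  have hK : s / K n = n * be := by
    unfold K
    rw [hbe]
    field_simp
  have hpow : a ^ (((n : ℝ) - 1) / n) = al ^ (n - 1) := by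
    rw [hal, ← Real.rpow_natCast, ← Real.rpow_mul ha0.le]
    congr 1
    rw [Nat.cast_sub hn, Nat.cast_one]
    ring
  rw [hK, hpow]
  have hb := one_add_mul_le_pow (a := be / al) (by
    have : 0 < be / al := by positivity
    linarith) n
  have e1 : (al + be) ^ n = al ^ n * (1 + be / al) ^ n := by
    rw [← mul_pow]
    congr 1
    field_simp
  rw [e1]
  have e2 : a + ↑n * be * al ^ (n - 1) = al ^ n * (1 + n * (be / al)) := by
    obtain ⟨m, rfl⟩ : ∃ m, n = m + 1 := ⟨n - 1, by omega⟩
    rw [← haln]
    simp only [Nat.add_sub_cancel]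
    field_simp
    ring
  rw [e2]
  exact mul_le_mul_of_nonneg_left hb (by positivity)

end Pool.Agent.H58.HS.B5
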