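import Pool.Agent.H80.HS.Targets

namespace Pool.Agent.H58.HS.V6
open MeasureTheory Set Pool.Agent.H80.HS
open scoped ContDiff ENNReal

variable {n : ℕ}

lemma measurable_sX {F : Set (H n)} (hF : MeasurableSet F) :
    Measurable fun q : V n × ℝ => sX F q.1 q.2 := by
  have hS : MeasurableSet {z : (V n × ℝ) × V n |
      ((z.2, z.1.1, z.1.2 + 2 * inner ℝ z.2 z.1.1) : H n) ∈ F} := by
    have hc : Continuous fun z : (V n × ℝ) × V n =>
        ((z.2, z.1.1, z.1.2 + 2 * inner ℝ z.2 z.1.1) : H n) := by fun_prop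
    exact hc.measurable hF
  exact measurable_measure_prodMk_left hS

lemma measurable_sY {F : Set (H n)} (hF : MeasurableSet F) :
    Measurable fun q : V n × ℝ => sY F q.1 q.2 := by
  have hS : MeasurableSet {z : (V n × ℝ) × V n |
      ((z.1.1, z.2, z.1.2 - 2 * inner ℝ z.1.1 z.2) : H n) ∈ F} := by
    have hc : Continuous fun z : (V n × ℝ) × V n =>
        ((z.1.1, z.2, z.1.2 - 2 * inner ℝ z.1.1 z.2) : H n) := by fun_prop
    exact hc.measurable hF
  exact measurable_measure_prodMk_left hS

lemma measurable_WX {F : Set (H n)} (hF : MeasurableSet F) : Measurable (WX F) := by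
  have hc : Continuous fun p : H n => ((p.2.1, p.2.2 - 2 * inner ℝ p.1 p.2.1) : V n × ℝ) := by
    fun_prop
  exact (measurable_sX hF).comp hc.measurable

lemma measurable_WY {F : Set (H n)} (hF : MeasurableSet F) : Measurable (WY F) := by
  have hc : Continuous fun p : H n => ((p.1, p.2.2 + 2 * inner ℝ p.1 p.2.1) : V n × ℝ) := by
    fun_prop
  exact (measurable_sY hF).comp hc.measurable

lemma WX_lt_top {F : Set (H n)} (hF : IsCompact F) (p : H n) : WX F p < ⊤ := by
  unfold WX sX
  refine lt_of_le_of_lt (measure_mono ?_) (hF.image continuous_fst).measure_lt_top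
  intro x hx
  exact ⟨_, hx, rfl⟩

lemma WY_lt_top {F : Set (H n)} (hF : IsCompact F) (p : H n) : WY F p < ⊤ := by
  unfold WY sY
  refine lt_of_le_of_lt (measure_mono ?_)
    (hF.image (continuous_fst.comp continuous_snd)).measure_lt_top
  intro x hx
  exact ⟨_, hx, rfl⟩

lemma WX_ae (h1 : T_S1) {F : Set (H n)} (hF : MeasurableSet F) :
    ∀ᵐ p ∂(volume.restrict F), WX F p ≠ 0 := by
  rw [ae_restrict_iff' hF]
  have hm := measurable_WX hF
  have hZ : MeasurableSet {p : H n | p ∈ F ∧ WX F p = 0} :=
    hF.inter (hm (measurableSet_singleton 0))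
  have h0 : volume {p : H n | p ∈ F ∧ WX F p = 0} = 0 := by
    rw [← lintegral_indicator_one hZ, h1 n _ (measurable_one.indicator hZ)]
    rw [lintegral_eq_zero_iff']
    · refine Filter.Eventually.of_forall fun q => ?_
      show ∫⁻ x : V n, ({p : H n | p ∈ F ∧ WX F p = 0}.indicator 1
        ((x, q.1, q.2 + 2 * inner ℝ x q.1) : H n) : ℝ≥0∞) = 0
      have hW : ∀ x : V n, WX F ((x, q.1, q.2 + 2 * inner ℝ x q.1) : H n) = sX F q.1 q.2 := by
        intro x
        unfold WX
        simp
      by_cases hs : sX F q.1 q.2 = 0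
      · refine le_antisymm ?_ zero_le
        calc ∫⁻ x : V n, ({p : H n | p ∈ F ∧ WX F p = 0}.indicator 1
              ((x, q.1, q.2 + 2 * inner ℝ x q.1) : H n) : ℝ≥0∞)
            ≤ ∫⁻ x : V n, ({x : V n | ((x, q.1, q.2 + 2 * inner ℝ x q.1) : H n) ∈ F}.indicator 1
                x : ℝ≥0∞) := by
              refine lintegral_mono fun x => ?_
              by_cases hx : ((x, q.1, q.2 + 2 * inner ℝ x q.1) : H n) ∈ F
              · rw [indicator_of_mem (show x ∈ {x : V n |
                  ((x, q.1, q.2 + 2 * inner ℝ x q.1) : H n) ∈ F} from hx)]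
                exact indicator_le_self' (fun _ _ => zero_le) _
              · rw [indicator_of_notMem (fun h => hx h.1)]
                exact zero_le
          _ = sX F q.1 q.2 := by
              have hc : Continuous fun x : V n =>
                ((x, q.1, q.2 + 2 * inner ℝ x q.1) : H n) := by fun_prop
              exact lintegral_indicator_one (μ := volume) (hc.measurable hF)
          _ = 0 := hs
      · have : ∀ x : V n, ({p : H n | p ∈ F ∧ WX F p = 0}.indicator 1
            ((x, q.1, q.2 + 2 * inner ℝ x q.1) : H n) : ℝ≥0∞) = 0 := by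
          intro x
          refine indicator_of_notMem ?_ _
          rintro ⟨-, h⟩
          rw [hW] at h
          exact hs h
        simp only [this, lintegral_zero]
    · have hc : Continuous fun z : (V n × ℝ) × V n =>
        ((z.2, z.1.1, z.1.2 + 2 * inner ℝ z.2 z.1.1) : H n) := by fun_prop
      have := ((measurable_one.indicator hZ).comp hc.measurable : Measurable
        (fun z : (V n × ℝ) × V n => ({p : H n | p ∈ F ∧ WX F p = 0}.indicator 1
          ((z.2, z.1.1, z.1.2 + 2 * inner ℝ z.2 z.1.1) : H n) : ℝ≥0∞)))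
      exact this.lintegral_prod_right'.aemeasurable
  rw [ae_iff]
  refine measure_mono_null ?_ h0
  intro p hp
  simp only [mem_setOf_eq, Classical.not_imp, not_not] at hp
  exact hp

lemma WY_ae (h2 : T_S2) {F : Set (H n)} (hF : MeasurableSet F) :
    ∀ᵐ p ∂(volume.restrict F), WY F p ≠ 0 := by
  rw [ae_restrict_iff' hF]
  have hm := measurable_WY hF
  have hZ : MeasurableSet {p : H n | p ∈ F ∧ WY F p = 0} :=
    hF.inter (hm (measurableSet_singleton 0))
  have h0 : volume {p : H n | p ∈ F ∧ WY F p = 0} = 0 := by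
    rw [← lintegral_indicator_one hZ, h2 n _ (measurable_one.indicator hZ)]
    rw [lintegral_eq_zero_iff']
    · refine Filter.Eventually.of_forall fun q => ?_
      show ∫⁻ y : V n, ({p : H n | p ∈ F ∧ WY F p = 0}.indicator 1
        ((q.1, y, q.2 - 2 * inner ℝ q.1 y) : H n) : ℝ≥0∞) = 0
      have hW : ∀ y : V n, WY F ((q.1, y, q.2 - 2 * inner ℝ q.1 y) : H n) = sY F q.1 q.2 := by
        intro y
        unfold WY
        simp
      by_cases hs : sY F q.1 q.2 = 0
      · refine le_antisymm ?_ zero_le
        calc ∫⁻ y : V n, ({p : H n | p ∈ F ∧ WY F p = 0}.indicator 1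
              ((q.1, y, q.2 - 2 * inner ℝ q.1 y) : H n) : ℝ≥0∞)
            ≤ ∫⁻ y : V n, ({y : V n | ((q.1, y, q.2 - 2 * inner ℝ q.1 y) : H n) ∈ F}.indicator 1
                y : ℝ≥0∞) := by
              refine lintegral_mono fun y => ?_
              by_cases hx : ((q.1, y, q.2 - 2 * inner ℝ q.1 y) : H n) ∈ F
              · rw [indicator_of_mem (show y ∈ {y : V n |
                  ((q.1, y, q.2 - 2 * inner ℝ q.1 y) : H n) ∈ F} from hx)]
                exact indicator_le_self' (fun _ _ => zero_le) _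
              · rw [indicator_of_notMem (fun h => hx h.1)]
                exact zero_le
          _ = sY F q.1 q.2 := by
              have hc : Continuous fun y : V n =>
                ((q.1, y, q.2 - 2 * inner ℝ q.1 y) : H n) := by fun_prop
              exact lintegral_indicator_one (μ := volume) (hc.measurable hF)
          _ = 0 := hs
      · have : ∀ y : V n, ({p : H n | p ∈ F ∧ WY F p = 0}.indicator 1
            ((q.1, y, q.2 - 2 * inner ℝ q.1 y) : H n) : ℝ≥0∞) = 0 := by
          intro y
          refine indicator_of_notMem ?_ _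
          rintro ⟨-, h⟩
          rw [hW] at h
          exact hs h
        simp only [this, lintegral_zero]
    · have hc : Continuous fun z : (V n × ℝ) × V n =>
        ((z.1.1, z.2, z.1.2 - 2 * inner ℝ z.1.1 z.2) : H n) := by fun_prop
      have := ((measurable_one.indicator hZ).comp hc.measurable : Measurable
        (fun z : (V n × ℝ) × V n => ({p : H n | p ∈ F ∧ WY F p = 0}.indicator 1
          ((z.1.1, z.2, z.1.2 - 2 * inner ℝ z.1.1 z.2) : H n) : ℝ≥0∞)))
      exact this.lintegral_prod_right'.aemeasurable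
  rw [ae_iff]
  refine measure_mono_null ?_ h0
  intro p hp
  simp only [mem_setOf_eq, Classical.not_imp, not_not] at hp
  exact hp

theorem v6 : T_S1 → T_S2 → T_V6 := by
  intro h1 h2 n hn F a b c hF ha hb hc hX hY hXY
  have hn0 : (0 : ℝ) < n := by exact_mod_cast hn
  have hFm := hF.measurableSet
  have hFt : volume F < ⊤ := hF.measure_lt_top
  set al : ℝ := n / (2 * n + 1) with hal
  set be : ℝ := 1 / (2 * (n : ℝ) + 1) with hbe
  have hal0 : 0 < al := by positivity
  have hbe0 : 0 < be := by positivity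
  have hsum : al + al + be = 1 := by
    rw [hal, hbe]
    field_simp
    ring
  have hex : -(1 / (n : ℝ)) * al + be = 0 := by
    rw [hal, hbe]
    field_simp
    ring
  have hmX := measurable_WX hFm
  have hmY := measurable_WY hFm
  -- Hoelder
  have hH := ENNReal.lintegral_prod_norm_pow_le (μ := volume.restrict F)
    (Finset.univ : Finset (Fin 3))
    (f := ![fun p => WX F p ^ (-(1 / (n : ℝ))), fun p => WY F p ^ (-(1 / (n : ℝ))),
      fun p => WX F p * WY F p])
    (by
      intro i _
      fin_cases i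
      · exact (hmX.pow_const _).aemeasurable
      · exact (hmY.pow_const _).aemeasurable
      · exact (hmX.mul hmY).aemeasurable)
    (p := ![al, al, be]) (by simp [Fin.sum_univ_three]; linarith)
    (by
      intro i _
      fin_cases i
      · exact hal0.le
      · exact hal0.le
      · exact hbe0.le)
  simp only [Fin.prod_univ_three, Matrix.cons_val_zero, Matrix.cons_val_one,
    Matrix.cons_val] at hH
  have hone : ∫⁻ p in F, (WX F p ^ (-(1 / (n : ℝ)))) ^ al * (WY F p ^ (-(1 / (n : ℝ)))) ^ al *
      (WX F p * WY F p) ^ be = volume F := by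
    have : ∀ᵐ p ∂(volume.restrict F), (WX F p ^ (-(1 / (n : ℝ)))) ^ al *
        (WY F p ^ (-(1 / (n : ℝ)))) ^ al * (WX F p * WY F p) ^ be = 1 := by
      filter_upwards [WX_ae h1 hFm, WY_ae h2 hFm] with p hp1 hp2
      have t1 := (WX_lt_top hF p).ne
      have t2 := (WY_lt_top hF p).ne
      rw [ENNReal.mul_rpow_of_ne_zero hp1 hp2, ← ENNReal.rpow_mul, ← ENNReal.rpow_mul]
      calc WX F p ^ (-(1 / (n : ℝ)) * al) * WY F p ^ (-(1 / (n : ℝ)) * al) *
            (WX F p ^ be * WY F p ^ be)
          = (WX F p ^ (-(1 / (n : ℝ)) * al) * WX F p ^ be) *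
            (WY F p ^ (-(1 / (n : ℝ)) * al) * WY F p ^ be) := by ring
        _ = 1 := by
            rw [← ENNReal.rpow_add _ _ hp1 t1, ← ENNReal.rpow_add _ _ hp2 t2, hex,
              ENNReal.rpow_zero, ENNReal.rpow_zero, one_mul]
    rw [lintegral_congr_ae this]
    simp
  rw [hone] at hH
  have hH2 : volume F ≤ ENNReal.ofReal a ^ al * ENNReal.ofReal b ^ al *
      (volume F * ENNReal.ofReal c) ^ be := by
    refine le_trans hH ?_
    gcongr
  set x : ℝ := (volume F).toReal with hx
  have hFx : volume F = ENNReal.ofReal x := (ENNReal.ofReal_toReal hFt.ne).symm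
  rcases (show 0 ≤ x from ENNReal.toReal_nonneg).eq_or_lt with hx0 | hx0
  · rw [← hx0]
    have : 0 ≤ a * b * c ^ (1 / (n : ℝ)) := by positivity
    simpa using this
  rw [hFx, ← ENNReal.ofReal_mul hx0.le, ENNReal.ofReal_rpow_of_nonneg ha hal0.le,
    ENNReal.ofReal_rpow_of_nonneg hb hal0.le,
    ENNReal.ofReal_rpow_of_nonneg (by positivity) hbe0.le,
    ← ENNReal.ofReal_mul (by positivity), ← ENNReal.ofReal_mul (by positivity),
    ENNReal.ofReal_le_ofReal_iff (by positivity)] at hH2
  have h3 : x ^ (2 * n + 1) ≤ (a ^ al * b ^ al * (x * c) ^ be) ^ (2 * n + 1) :=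
    pow_le_pow_left₀ hx0.le hH2 _
  have ea : ∀ t : ℝ, 0 ≤ t → (t ^ al) ^ (2 * n + 1) = t ^ n := by
    intro t ht
    rw [← Real.rpow_natCast, ← Real.rpow_mul ht, ← Real.rpow_natCast t n]
    congr 1
    rw [hal]
    push_cast
    field_simp
  have eb : ∀ t : ℝ, 0 ≤ t → (t ^ be) ^ (2 * n + 1) = t := by
    intro t ht
    rw [← Real.rpow_natCast, ← Real.rpow_mul ht]
    conv_rhs => rw [← Real.rpow_one t]
    congr 1
    rw [hbe]
    push_cast
    field_simp
  rw [mul_pow, mul_pow, ea a ha, ea b hb, eb (x * c) (by positivity)] at h3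
  have h4 : (x ^ 2) ^ n ≤ (a * b * c ^ (1 / (n : ℝ))) ^ n := by
    have ec : (c ^ (1 / (n : ℝ))) ^ n = c := by
      rw [← Real.rpow_natCast, ← Real.rpow_mul hc, one_div_mul_cancel hn0.ne', Real.rpow_one]
    rw [mul_pow, mul_pow, ec, ← pow_mul]
    have h5 : x ^ (2 * n) * x ≤ a ^ n * b ^ n * c * x := by
      calc x ^ (2 * n) * x = x ^ (2 * n + 1) := by ring
        _ ≤ _ := h3
        _ = _ := by ring
    exact le_of_mul_le_mul_right h5 hx0
  exact (pow_le_pow_iff_left₀ (by positivity) (by positivity) (by omega)).1 h4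

end Pool.Agent.H58.HS.V6
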