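import Pool.Agent.H80.HS.Targets

namespace Pool.Agent.H58.HS.V8
open MeasureTheory Set Pool.Agent.H80.HS
open scoped ContDiff ENNReal

/-- the algebra of the last step -/
lemma alg {n : ℕ} (hn : 1 ≤ n) {x G W : ℝ} (hx : 0 < x) (hG : 0 < G) (hW : 0 ≤ W) {D : ℝ}
    (hD : 0 ≤ D) (h : x ^ 2 ≤ D * G ^ 2 * (W * G ^ 2 / x ^ 2) ^ (1 / (n : ℝ))) :
    x ≤ D ^ ((n : ℝ) / (2 * n + 2)) * G * W ^ (1 / (2 * (n : ℝ) + 2)) := by
  have hn0 : (0 : ℝ) < n := by exact_mod_cast hn
  set s : ℝ := (n : ℝ) / (2 * n + 2) with hs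
  have hs0 : 0 < s := by positivity
  set r : ℝ := 1 / (2 * (n : ℝ) + 2) with hr
  have hr0 : 0 < r := by positivity
  have h1 : (x ^ 2) ^ s ≤ (D * G ^ 2 * (W * G ^ 2 / x ^ 2) ^ (1 / (n : ℝ))) ^ s :=
    Real.rpow_le_rpow (by positivity) h hs0.le
  have e1 : 1 / (n : ℝ) * s = r := by
    rw [hs, hr]
    field_simp
  have e2 : (2 : ℝ) * s + 2 * r = 1 := by
    rw [hs, hr]
    field_simp
  have hq : 0 ≤ W * G ^ 2 / x ^ 2 := by positivity
  rw [Real.mul_rpow (by positivity) (by positivity), Real.mul_rpow hD (by positivity),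
    ← Real.rpow_mul hq, e1, Real.div_rpow (by positivity) (by positivity),
    Real.mul_rpow hW (by positivity)] at h1
  have hxs : (x ^ 2) ^ s = x ^ (2 * s) := by
    rw [← Real.rpow_natCast, ← Real.rpow_mul hx.le]
    norm_num
  have hGs : (G ^ 2) ^ s = G ^ (2 * s) := by
    rw [← Real.rpow_natCast, ← Real.rpow_mul hG.le]
    norm_num
  have hxr : (x ^ 2) ^ r = x ^ (2 * r) := by
    rw [← Real.rpow_natCast, ← Real.rpow_mul hx.le]
    norm_num
  have hGr : (G ^ 2) ^ r = G ^ (2 * r) := by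
    rw [← Real.rpow_natCast, ← Real.rpow_mul hG.le]
    norm_num
  rw [hxs, hGs, hxr, hGr] at h1
  have hxx : x = x ^ (2 * s) * x ^ (2 * r) := by
    rw [← Real.rpow_add hx, e2, Real.rpow_one]
  have hGG : G = G ^ (2 * s) * G ^ (2 * r) := by
    rw [← Real.rpow_add hG, e2, Real.rpow_one]
  have hxr0 : 0 < x ^ (2 * r) := Real.rpow_pos_of_pos hx _
  calc x = x ^ (2 * s) * x ^ (2 * r) := hxx
    _ ≤ (D ^ s * G ^ (2 * s) * (W ^ r * G ^ (2 * r) / x ^ (2 * r))) * x ^ (2 * r) :=
        mul_le_mul_of_nonneg_right h1 hxr0.le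
    _ = D ^ s * (G ^ (2 * s) * G ^ (2 * r)) * W ^ r := by
        field_simp
    _ = D ^ s * G * W ^ r := by rw [← hGG]

theorem v8 : T_V2 → T_V4 → T_V7 → T_V8 := by
  intro h2 h4 h7 n hn v hv hc hv0
  have hn0 : (0 : ℝ) < n := by exact_mod_cast hn
  set G : ℝ := ∫ p, grad v p with hG
  set W : ℝ := ∫ p, v p with hW
  have hG0 : 0 ≤ G := integral_nonneg fun p => grad_nonneg v p
  have hW0 : 0 ≤ W := integral_nonneg fun p => hv0 p
  have hCC := CC_pos hn
  set x : ℝ := (volume {p | 1 ≤ v p}).toReal with hx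
  rcases (show 0 ≤ x from ENNReal.toReal_nonneg).eq_or_lt with hx0 | hx0
  · rw [← hx0]
    positivity
  -- finiteness
  have hfin : ∀ (w : H n → ℝ) (θ : ℝ), HasCompactSupport w → 0 < θ →
      volume {p | θ ≤ w p} < ⊤ := by
    intro w θ hw hθ
    refine lt_of_le_of_lt (measure_mono ?_) hw.isCompact.measure_lt_top
    intro p hp
    refine subset_tsupport w ?_
    rw [Function.mem_support]
    intro h0
    have : θ ≤ w p := hp
    linarith
  set θ : ℝ := n / (n + 1) with hθ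
  set η : ℝ := 1 / ((n : ℝ) + 1) with hη
  have hθ0 : 0 < θ := by positivity
  have hη0 : 0 < η := by positivity
  have hθη : θ + η = 1 := by
    rw [hθ, hη]
    field_simp
  have key : ∀ h : ℝ, 0 < h → x ≤ (volume {p | θ ≤ sm h v p}).toReal +
      2 * Real.sqrt h * G / η := by
    intro h hh
    obtain ⟨hs1, hs2, -⟩ := h2 n v h hv hc hh
    have hint : Integrable (fun p => |sm h v p - v p|) := by
      refine Continuous.integrable_of_hasCompactSupport ?_ ?_
      · exact (hs1.continuous.sub hv.continuous).abs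
      · exact (hs2.sub hc).comp_left (g := fun t : ℝ => |t|) (by simp)
    have hm := mul_meas_ge_le_integral_of_nonneg (μ := volume)
      (Filter.Eventually.of_forall fun p => abs_nonneg (sm h v p - v p)) hint η
    have hm2 : η * (volume {p | η ≤ |sm h v p - v p|}).toReal ≤ 2 * Real.sqrt h * G :=
      le_trans hm (h4 n hn v h hv hc hh)
    have hsub : {p | 1 ≤ v p} ⊆ {p | θ ≤ sm h v p} ∪ {p | η ≤ |sm h v p - v p|} := by
      intro p hp
      have hp1 : 1 ≤ v p := hp
      by_cases hq : θ ≤ sm h v p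
      · exact Or.inl hq
      · right
        show η ≤ |sm h v p - v p|
        rw [abs_sub_comm]
        push Not at hq
        refine le_trans ?_ (le_abs_self _)
        linarith
    have hf1 := hfin (sm h v) θ hs2 hθ0
    have hf2 : volume {p | η ≤ |sm h v p - v p|} < ⊤ :=
      hfin (fun p => |sm h v p - v p|) η
        ((hs2.sub hc).comp_left (g := fun t : ℝ => |t|) (by simp)) hη0
    have h5 : volume {p | 1 ≤ v p} ≤ volume {p | θ ≤ sm h v p} +
        volume {p | η ≤ |sm h v p - v p|} :=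
      le_trans (measure_mono hsub) (measure_union_le _ _)
    have h6 := ENNReal.toReal_mono (ENNReal.add_lt_top.2 ⟨hf1, hf2⟩).ne h5
    rw [ENNReal.toReal_add hf1.ne hf2.ne] at h6
    have h7' : (volume {p | η ≤ |sm h v p - v p|}).toReal ≤ 2 * Real.sqrt h * G / η := by
      rw [le_div_iff₀ hη0]
      linarith
    linarith
  rcases hG0.eq_or_lt with hGz | hGp
  · exfalso
    have h8 := key 1 one_pos
    have h9 := h7 n hn v 1 θ hv hc hv0 one_pos hθ0
    rw [← hG, ← hGz] at h9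
    rw [← hGz] at h8
    have h10 : (volume {p | θ ≤ sm 1 v p}).toReal ^ 2 ≤ 0 := by
      refine le_trans h9 ?_
      simp
    have h11 : (volume {p | θ ≤ sm 1 v p}).toReal = 0 := by
      have := sq_nonneg (volume {p | θ ≤ sm 1 v p}).toReal
      exact pow_eq_zero_iff (two_ne_zero) |>.1 (le_antisymm h10 this)
    rw [h11] at h8
    simp at h8
    linarith
  · set h : ℝ := (η * η * x / (2 * G)) ^ 2 with hh
    have hh0 : 0 < h := by positivity
    have hsq : Real.sqrt h = η * η * x / (2 * G) := Real.sqrt_sq (by positivity)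
    have h8 := key h hh0
    have h9 := h7 n hn v h θ hv hc hv0 hh0 hθ0
    rw [hsq] at h8
    have h10 : 2 * (η * η * x / (2 * G)) * G / η = η * x := by
      field_simp
    rw [h10] at h8
    have h11 : θ * x ≤ (volume {p | θ ≤ sm h v p}).toReal := by
      have : θ * x = x - η * x := by
        have : θ = 1 - η := by linarith
        rw [this]
        ring
      linarith
    have h12 : (θ * x) ^ 2 ≤ K n ^ 2 / (2 * θ ^ 2) * G ^ 2 * (W / (θ * h)) ^ (1 / (n : ℝ)) :=
      le_trans (pow_le_pow_left₀ (by positivity) h11 2) h9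
    set D : ℝ := K n ^ 2 / 2 * (((n : ℝ) + 1) / n) ^ 4 *
      (4 * ((n : ℝ) + 1) ^ 5 / n) ^ (1 / (n : ℝ)) with hD
    have hK := K_pos hn
    have hD0 : 0 ≤ D := by positivity
    have e1 : W / (θ * h) = (4 * ((n : ℝ) + 1) ^ 5 / n) * (W * G ^ 2 / x ^ 2) := by
      rw [hh, hθ, hη]
      field_simp
      ring
    rw [e1, Real.mul_rpow (by positivity) (by positivity)] at h12
    have h13 : x ^ 2 ≤ D * G ^ 2 * (W * G ^ 2 / x ^ 2) ^ (1 / (n : ℝ)) := by
      have e2 : D * G ^ 2 * (W * G ^ 2 / x ^ 2) ^ (1 / (n : ℝ)) =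
          (K n ^ 2 / (2 * θ ^ 2) * G ^ 2 * ((4 * ((n : ℝ) + 1) ^ 5 / n) ^ (1 / (n : ℝ)) *
            (W * G ^ 2 / x ^ 2) ^ (1 / (n : ℝ)))) / θ ^ 2 := by
        rw [hD, hθ]
        field_simp
      rw [e2, le_div_iff₀ (by positivity)]
      calc x ^ 2 * θ ^ 2 = (θ * x) ^ 2 := by ring
        _ ≤ _ := h12
    have h14 := alg hn hx0 hGp hW0 hD0 h13
    exact h14

end Pool.Agent.H58.HS.V8
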